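import Pool.Agent.Helper17.NG.FStm

/-!
# The affine Fermat curve is geometrically integral
-/

set_option autoImplicit false

namespace Pool.Agent.Helper44.NoriFermat2

open Polynomial TensorProduct
open Pool.Agent.Helper17.NG

/-- the defining polynomial -/
noncomputable abbrev FP (κ : Type) [Field κ] (n : ℕ) : (κ[X])[X] := X ^ n + C (X ^ n + 1)

theorem FP_monic {κ : Type} [Field κ] {n : ℕ} (hn : 0 < n) : (FP κ n).Monic :=
  monic_X_pow_add_C _ hn.ne'

theorem FP_prime {κ : Type} [Field κ] {n : ℕ} (hn : (n : κ) ≠ 0) : Prime (FP κ n) := by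
  have hn0 : n ≠ 0 := by
    rintro rfl
    simp at hn
  have hnp : 0 < n := Nat.pos_of_ne_zero hn0
  -- a prime factor of `X ^ n + 1`
  have hsep : (X ^ n - C (-1) : κ[X]).Separable :=
    separable_X_pow_sub_C (-1) hn (by simp)
  have hE : (X ^ n - C (-1) : κ[X]) = X ^ n + 1 := by
    rw [C_neg, sub_neg_eq_add, C_1]
  rw [hE] at hsep
  have hdeg : (X ^ n + 1 : κ[X]).degree = n := by
    have := degree_X_pow_add_C (R := κ) hnp 1
    simpa using this
  have hnu : ¬ IsUnit (X ^ n + 1 : κ[X]) := by
    intro hu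
    have := degree_eq_zero_of_isUnit hu
    rw [hdeg] at this
    exact hn0 (by exact_mod_cast this)
  have h0 : (X ^ n + 1 : κ[X]) ≠ 0 := by
    intro h
    rw [h] at hdeg
    simp at hdeg
  obtain ⟨p, hp, hpd⟩ := WfDvdMonoid.exists_irreducible_factor hnu h0
  have hpp : Prime p := hp.prime
  have hP : (Ideal.span {p} : Ideal κ[X]).IsPrime := (Ideal.span_singleton_prime hpp.ne_zero).2 hpp
  have hirr : Irreducible (FP κ n) := by
    refine irreducible_of_eisenstein_criterion hP ?_ ?_ ?_ ?_ ?_
    · rw [(FP_monic hnp).leadingCoeff]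
      exact fun h => hP.ne_top ((Ideal.eq_top_iff_one _).2 h)
    · intro m hm
      have hd : (FP κ n).degree = n := degree_X_pow_add_C hnp _
      rw [hd] at hm
      have hm' : m < n := by exact_mod_cast hm
      rw [coeff_add, coeff_X_pow, if_neg hm'.ne, zero_add, coeff_C]
      split_ifs
      · exact Ideal.mem_span_singleton.2 hpd
      · exact Ideal.zero_mem _
    · rw [show (FP κ n).degree = n from degree_X_pow_add_C hnp _]
      exact_mod_cast hnp
    · rw [coeff_add, coeff_X_pow, if_neg hn0.symm, zero_add, coeff_C_zero,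
        Ideal.span_singleton_pow, Ideal.mem_span_singleton]
      intro hd
      rw [pow_two] at hd
      exact hp.not_isUnit (hsep.squarefree p hd)
    · exact (FP_monic hnp).isPrimitive
  exact hirr.prime

/-- The map from the base change. -/
noncomputable def ι (κ : Type) [Field κ] (n : ℕ) (K : Type) [Field K] [Algebra κ K] :
    FC κ n →ₐ[κ] FC K n :=
  AdjoinRoot.liftAlgHom (FP κ n)
    ((IsScalarTower.toAlgHom κ K[X] (FC K n)).comp (Polynomial.mapAlgHom (Algebra.ofId κ K)))
    (AdjoinRoot.root (FP K n)) (by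
      have h := AdjoinRoot.eval₂_root (FP K n)
      rw [eval₂_add, eval₂_pow, eval₂_X, eval₂_C] at h ⊢
      rw [← h]
      congr 1
      simp)

theorem domainStm : DomainStm := by
  intro κ _ n hn K _ _
  have hnK : (n : K) ≠ 0 := by
    intro h
    apply hn
    have : algebraMap κ K n = 0 := by simpa using h
    exact (map_eq_zero _).1 this
  have hdom : IsDomain (FC K n) := AdjoinRoot.isDomain_of_prime (FP_prime hnK)
  -- the two maps
  let φ : FC κ n ⊗[κ] K →ₐ[κ] FC K n :=
    Algebra.TensorProduct.lift (ι κ n K) (IsScalarTower.toAlgHom κ K (FC K n))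
      (fun _ _ => Commute.all _ _)
  let x : FC κ n ⊗[κ] K := (AdjoinRoot.of (FP κ n) X) ⊗ₜ 1
  let y : FC κ n ⊗[κ] K := (AdjoinRoot.root (FP κ n)) ⊗ₜ 1
  let ψ₀ : K[X] →+* FC κ n ⊗[κ] K :=
    Polynomial.eval₂RingHom (Algebra.TensorProduct.includeRight (R := κ) (A := FC κ n) (B := K)).toRingHom x
  have hψ : (FP K n).eval₂ ψ₀ y = 0 := by
    have h := AdjoinRoot.eval₂_root (FP κ n)
    rw [eval₂_add, eval₂_pow, eval₂_X, eval₂_C] at h ⊢
    have h2 := congrArg (fun z => (z ⊗ₜ[κ] (1 : K))) h
    simp only [TensorProduct.zero_tmul, TensorProduct.add_tmul] at h2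
    rw [← h2]
    simp [ψ₀, x, y, Algebra.TensorProduct.tmul_pow, TensorProduct.add_tmul,
      Algebra.TensorProduct.one_def]
  let ψ : FC K n →+* FC κ n ⊗[κ] K := AdjoinRoot.lift ψ₀ y hψ
  have hψι : ∀ a : FC κ n, ψ (ι κ n K a) = a ⊗ₜ 1 := by
    intro a
    have : ψ.comp (ι κ n K).toRingHom =
        (Algebra.TensorProduct.includeLeft (R := κ) (S := κ) (A := FC κ n) (B := K)).toRingHom := by
      refine AdjoinRoot.ringHom_ext ?_ ?_
      · refine Polynomial.ringHom_ext ?_ ?_
        · intro c
          simp [ψ, ψ₀, ι]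
          rfl
        · simp [ψ, ψ₀, ι, x]
      · simp [ψ, ψ₀, ι, y]
    exact DFunLike.congr_fun this a
  have hψK : ∀ k : K, ψ (algebraMap K (FC K n) k) = 1 ⊗ₜ k := by
    intro k
    rw [show algebraMap K (FC K n) k = AdjoinRoot.of (FP K n) (C k) from rfl]
    simp [ψ, ψ₀]
  have hinj : Function.Injective φ := by
    have hleft : ∀ z, ψ (φ z) = z := by
      intro z
      induction z using TensorProduct.induction_on with
      | zero => simp
      | tmul a k =>
        rw [show φ (a ⊗ₜ k) = ι κ n K a * algebraMap K (FC K n) k from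
          Algebra.TensorProduct.lift_tmul _ _ _ _ _, map_mul, hψι, hψK]
        simp
      | add a b ha hb => rw [map_add φ a b, map_add ψ, ha, hb]
    exact Function.LeftInverse.injective hleft
  exact hinj.isDomain φ.toRingHom

end Pool.Agent.Helper44.NoriFermat2
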